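import Pool.Agent.W495.TA.Stms

/-!
# A supersingular elliptic curve with complex multiplication (task `S_ss` of the project TA)
-/

set_option autoImplicit false
set_option linter.unusedSectionVars false
set_option linter.unusedVariables false

namespace Pool.Agent.W978.TASS

open NumberField Pool.Agent.H204R3.CM Pool.Agent.W547.KB Pool.Agent.W547.LD Module
open Pool.Agent.W495.TA

noncomputable section

section

variable (p : ℕ) [Fact p.Prime] (ν : PadicAlgCl p ≃+* ℂ) {L : Type}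
    [Field L] [NumberField L] [IsCMField L] [IsGalois ℚ L] (j : L →+* ℂ)

theorem tf_compl (S : Set (L ≃ₐ[ℚ] L)) (σ : L ≃ₐ[ℚ] L) : tf p ν j Sᶜ σ = -tf p ν j S σ := by
  classical
  unfold tf
  rw [← Finset.sum_neg_distrib]
  refine Finset.sum_congr rfl fun d _ => ?_
  by_cases h : d ∈ Dec p ν j
  · rw [if_pos h, if_pos h]
    by_cases h2 : d * σ ∈ S
    · rw [if_pos h2, if_neg (fun h3 => h3 h2)]
    · rw [if_neg h2, if_pos (show d * σ ∈ Sᶜ from h2)]
      norm_num
  · rw [if_neg h, if_neg h, neg_zero]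

variable (A : CMPair)

/-- The set of automorphisms `σ` with `s (σ φ₀) = 1`. -/
def ee (s : (A.E →+* L) → ℤ) (φ₀ : A.E →+* L) : Set (L ≃ₐ[ℚ] L) := {σ | s (σ • φ₀) = 1}

variable {A}
variable {ε s : (A.E →+* L) → ℤ}

theorem mem_ee (φ₀ : A.E →+* L) (σ : L ≃ₐ[ℚ] L) : σ ∈ ee A s φ₀ ↔ s (σ • φ₀) = 1 := Iff.rfl

theorem isHalf_ee (hs1 : IsSign (cc L) s) (φ₀ : A.E →+* L) : IsHalf (ee A s φ₀) := by
  intro σ
  rw [mem_ee, mem_ee, mul_smul, hs1.odd]
  rcases hs1.sign (σ • φ₀) with h | h <;> rw [h] <;> norm_num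

theorem tr_ee (hs1 : IsSign (cc L) s) (hsem : Semi (L ≃ₐ[ℚ] L) s) (φ₀ : A.E →+* L)
    (h0 : s φ₀ = 1) (τ : L ≃ₐ[ℚ] L) :
    tr τ (ee A s φ₀) = ee A s φ₀ ∨ tr τ (ee A s φ₀) = (ee A s φ₀)ᶜ := by
  have key : ∀ σ : L ≃ₐ[ℚ] L, s ((σ * τ) • φ₀) = s (σ • φ₀) * s (τ • φ₀) := by
    intro σ
    rw [mul_smul]
    rcases hsem σ with h | h
    · rw [h, h φ₀, h0, one_mul]
    · rw [h, h φ₀, h0]; ring
  rcases hs1.sign (τ • φ₀) with h | h
  · left
    ext σ
    rw [mem_tr, mem_ee, mem_ee, key, h, mul_one]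
  · right
    ext σ
    rw [mem_tr, Set.mem_compl_iff, mem_ee, mem_ee, key, h]
    rcases hs1.sign (σ • φ₀) with h2 | h2 <;> rw [h2] <;> norm_num

open Classical in
/-- The function of the half system of `φ` as a sum of signs. -/
theorem tf_hs (hε : ∀ φ, ε φ = 1 ↔ j.comp φ ∈ A.Φ) (hε1 : IsSign (cc L) ε) (φ : A.E →+* L)
    (σ : L ≃ₐ[ℚ] L) :
    tf p ν j (hs A j φ) σ =
      ∑ d : L ≃ₐ[ℚ] L, if d ∈ Dec p ν j then ε ((d * σ) • φ) else 0 := by
  unfold tf
  refine Finset.sum_congr rfl fun d _ => ?_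
  by_cases h : d ∈ Dec p ν j
  · rw [if_pos h, if_pos h]
    have h2 : d * σ ∈ hs A j φ ↔ ε ((d * σ) • φ) = 1 := (hε _).symm
    by_cases h3 : d * σ ∈ hs A j φ
    · rw [if_pos h3, h2.1 h3]
    · rw [if_neg h3]
      rcases hε1.sign ((d * σ) • φ) with h4 | h4
      · exact absurd (h2.2 h4) h3
      · exact h4.symm
  · rw [if_neg h, if_neg h]

open Classical in
theorem tf_ee (hs1 : IsSign (cc L) s) (φ₀ : A.E →+* L) (σ : L ≃ₐ[ℚ] L) :
    tf p ν j (ee A s φ₀) σ =
      ∑ d : L ≃ₐ[ℚ] L, if d ∈ Dec p ν j then s ((d * σ) • φ₀) else 0 := by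
  unfold tf
  refine Finset.sum_congr rfl fun d _ => ?_
  by_cases h : d ∈ Dec p ν j
  · rw [if_pos h, if_pos h]
    by_cases h3 : d * σ ∈ ee A s φ₀
    · rw [if_pos h3]; exact h3.symm
    · rw [if_neg h3]
      rcases hs1.sign ((d * σ) • φ₀) with h4 | h4
      · exact absurd h4 h3
      · exact h4.symm
  · rw [if_neg h, if_neg h]

open Classical in
theorem tf_ee_zero (hε : ∀ φ, ε φ = 1 ↔ j.comp φ ∈ A.Φ) (hε1 : IsSign (cc L) ε)
    (hs1 : IsSign (cc L) s) [Fintype (A.E →+* L)] (r : ℕ) (u : ℤ)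
    (hu : u = 1 ∨ u = -1) (hbal : Bal (G := L ≃ₐ[ℚ] L) ε s r u)
    (hrel : ∀ σ, ∑ φ, s φ * tf p ν j (hs A j φ) σ = 0) (hr : 0 < r) (φ₀ : A.E →+* L)
    (h0 : s φ₀ = 1) (σ : L ≃ₐ[ℚ] L) : tf p ν j (ee A s φ₀) σ = 0 := by
  -- the sum over `s φ = 1`
  have hodd : ∀ φ : A.E →+* L, tf p ν j (hs A j (cc L • φ)) σ = -tf p ν j (hs A j φ) σ := by
    intro φ
    rw [tf_hs p ν j hε hε1, tf_hs p ν j hε hε1, ← Finset.sum_neg_distrib]
    refine Finset.sum_congr rfl fun d _ => ?_
    by_cases h : d ∈ Dec p ν j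
    · rw [if_pos h, if_pos h, ← mul_smul, ← cc_comm j, mul_smul, hε1.odd]
    · rw [if_neg h, if_neg h, neg_zero]
  have hP : ∑ φ : A.E →+* L, (if s φ = 1 then tf p ν j (hs A j φ) σ else 0) = 0 := by
    have h1 : ∑ φ : A.E →+* L, s φ * tf p ν j (hs A j φ) σ =
        ∑ φ : A.E →+* L, (if s φ = 1 then tf p ν j (hs A j φ) σ else 0) +
          ∑ φ : A.E →+* L, (if s (cc L • φ) = 1 then tf p ν j (hs A j (cc L • φ)) σ else 0) := by
      rw [← Finset.sum_add_distrib]
      refine Finset.sum_congr rfl fun φ _ => ?_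
      rw [hodd, hs1.odd]
      rcases hs1.sign φ with h | h
      · rw [h]; norm_num
      · rw [h]; norm_num
    have h2 : ∑ φ : A.E →+* L, (if s (cc L • φ) = 1 then tf p ν j (hs A j (cc L • φ)) σ else 0) =
        ∑ φ : A.E →+* L, (if s φ = 1 then tf p ν j (hs A j φ) σ else 0) := by
      exact Equiv.sum_comp (MulAction.toPerm (cc L))
        (fun φ : A.E →+* L => if s φ = 1 then tf p ν j (hs A j φ) σ else 0)
    rw [hrel, h2] at h1
    omega
  have hQ : ∑ φ : A.E →+* L, (if s φ = 1 then tf p ν j (hs A j φ) σ else 0) =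
      -(r * u * tf p ν j (ee A s φ₀) σ) := by
    calc ∑ φ : A.E →+* L, (if s φ = 1 then tf p ν j (hs A j φ) σ else 0)
        = ∑ φ : A.E →+* L, ∑ d : L ≃ₐ[ℚ] L,
            (if d ∈ Dec p ν j then (if s φ = 1 then ε ((d * σ) • φ) else 0) else 0) := by
          refine Finset.sum_congr rfl fun φ _ => ?_
          by_cases h : s φ = 1
          · rw [if_pos h, tf_hs p ν j hε hε1]
            refine Finset.sum_congr rfl fun d _ => ?_
            simp only [if_pos h]
          · simp only [if_neg h]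
            simp
      _ = ∑ d : L ≃ₐ[ℚ] L, if d ∈ Dec p ν j then
            (∑ φ : A.E →+* L, if s φ = 1 then ε ((d * σ) • φ) else 0) else 0 := by
          rw [Finset.sum_comm]
          refine Finset.sum_congr rfl fun d _ => ?_
          by_cases h : d ∈ Dec p ν j
          · simp only [if_pos h]
          · simp only [if_neg h]
            simp
      _ = ∑ d : L ≃ₐ[ℚ] L, if d ∈ Dec p ν j then -(r * u * s ((d * σ) • φ₀)) else 0 := by
          refine Finset.sum_congr rfl fun d _ => ?_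
          by_cases h : d ∈ Dec p ν j
          · rw [if_pos h, if_pos h]
            have h3 := hbal (d * σ) φ₀ h0
            linarith
          · rw [if_neg h, if_neg h]
      _ = -(r * u * tf p ν j (ee A s φ₀) σ) := by
          rw [tf_ee p ν j hs1, Finset.mul_sum, ← Finset.sum_neg_distrib]
          refine Finset.sum_congr rfl fun d _ => ?_
          by_cases h : d ∈ Dec p ν j
          · rw [if_pos h, if_pos h]
          · rw [if_neg h, if_neg h]; ring
  rw [hP] at hQ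
  have h4 : (r : ℤ) * u * tf p ν j (ee A s φ₀) σ = 0 := by linarith
  have h5 : (r : ℤ) * u ≠ 0 := by
    refine mul_ne_zero (by exact_mod_cast hr.ne') ?_
    rcases hu with h | h <;> rw [h] <;> norm_num
  exact (mul_eq_zero.1 h4).resolve_left h5

end

theorem ss : S_ss := by
  intro hval p _ ν L _ _ _ _ j A hA ε s hε hε1 hs1 hsem _ r u hu hbal hrel hr
  classical
  -- an embedding with `s φ₀ = 1`
  obtain ⟨ψ⟩ : Nonempty (A.E →+* ℂ) := inferInstance
  obtain ⟨φ₁, -⟩ := hA ψ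
  obtain ⟨φ₀, h0⟩ : ∃ φ₀ : A.E →+* L, s φ₀ = 1 := by
    rcases hs1.sign φ₁ with h | h
    · exact ⟨φ₁, h⟩
    · exact ⟨cc L • φ₁, by rw [hs1.odd, h]; norm_num⟩
  set e := ee A s φ₀ with he
  have hh : IsHalf e := isHalf_ee hs1 φ₀
  have htr := tr_ee hs1 hsem φ₀ h0
  have hz : ∀ σ, tf p ν j e σ = 0 :=
    tf_ee_zero p ν j hε hε1 hs1 r u hu hbal hrel hr φ₀ h0
  have hz' : ∀ τ : L ≃ₐ[ℚ] L, tf p ν j (tr τ e) = 0 := by
    intro τ
    funext σ
    rcases htr τ with h | h
    · rw [h]; exact hz σ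
    · rw [h, tf_compl, hz σ, neg_zero]; rfl
  have hhs : ∀ τ : L ≃ₐ[ℚ] L, hs (pairOf j e hh) j (emb e τ) = tr τ e := by
    intro τ
    ext σ
    rw [mem_tr, ← mem_typ j e (σ * τ)]
    exact Iff.rfl
  have hbig : BigA (pairOf j e hh) j := by
    intro ψ
    obtain ⟨τ, hτ⟩ := exists_embC j e ψ
    exact ⟨emb e τ, hτ.symm⟩
  have hfrob : IsFrobenius p ν (pairOf j e hh) 2 ((p : ℕ) : (pairOf j e hh).E) := by
    refine ⟨?_, ?_, ?_⟩
    · exact (isIntegral_algebraMap (R := ℤ) (x := (p : ℤ)) (A := (pairOf j e hh).E)) |> fun h => by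
        simpa using h
    · intro φ
      rw [map_natCast, Complex.norm_natCast]
    · refine (hval p ν L j (pairOf j e hh) hbig 2 _).2 ?_
      intro φ
      obtain ⟨τ, hτ⟩ := exists_emb e φ
      have h1 : hs (pairOf j e hh) j φ = tr τ e := by
        rw [← hhs τ]
        congr 1
      rw [h1, hz' τ, Pi.zero_apply, add_zero, map_natCast, map_natCast, map_natCast, norm_pow,
        zpow_mul]
      norm_cast
  let E : RedAV p ν :=
    { X := single (pairOf j e hh)
      a := 2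
      pos := by norm_num
      π := fun _ => ((p : ℕ) : (pairOf j e hh).E)
      frob := fun _ => hfrob }
  have hw : Function.Bijective
      (fun k : Fin 2 => (⟨(), emb e (if k = 0 then 1 else cc L)⟩ : Wt E.X L)) := by
    constructor
    · intro k k' h
      have h1 : emb e (if k = 0 then 1 else cc L) = emb e (if k' = 0 then 1 else cc L) :=
        eq_of_heq (Sigma.mk.inj h).2
      rw [emb_eq_iff] at h1
      fin_cases k <;> fin_cases k' <;> simp at h1 ⊢
      · rw [tr_one, tr_cc j hh] at h1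
        exact ne_compl e h1
      · rw [tr_one, tr_cc j hh] at h1
        exact ne_compl e h1.symm
    · rintro ⟨⟨⟩, φ⟩
      obtain ⟨τ, hτ⟩ := exists_emb e φ
      subst hτ
      rcases htr τ with h | h
      · refine ⟨0, ?_⟩
        have : emb e 1 = emb e τ := by
          rw [emb_eq_iff, tr_one, h]
        simp [this]
      · refine ⟨1, ?_⟩
        have : emb e (cc L) = emb e τ := by
          rw [emb_eq_iff, tr_cc j hh, h]
        simp [this]
  refine ⟨E, ?_, Equiv.ofBijective _ hw, ?_⟩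
  · intro i ψ
    exact hbig ψ
  · intro k
    have h1 : St j ((Equiv.ofBijective _ hw) k) = tr (if k = 0 then 1 else cc L) e :=
      hhs _
    rw [h1]
    exact hz' _

end

end Pool.Agent.W978.TASS
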